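import Pool.Agent.Y342.LE.Base
import Pool.Agent.TH378.LCGraph

/-!
# The list edge colouring conjecture for the complement of the cycle `C_{p+1}`

Let `p` be an odd prime. The list edge colouring conjecture holds for the complement of the cycle
with `p + 1` vertices, a `(p - 2)`-regular graph, and for all graphs in the class `Good p` that is
generated from it (and from `K_{p-1}`, and from all `(p - 2)`-regular graphs whose signed number of
edge colourings is not divisible by `p`) by disjoint unions, splicing, coverings with `p`-group
monodromy, and switching two edges.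
-/

set_option autoImplicit false

namespace Pool.Agent.Results.MP_2f9829_co.CycleComplements

/-- The list edge colouring conjecture for the single graph `G`, in the form of the frozen statement
`S07911`: for every `k`, the edges of `G` can be properly coloured with `k` colours if and only if
`G` has a proper edge colouring from every list assignment with lists of at least `k` colours. -/
def ListEdgeConjectureFor {V : Type} (G : SimpleGraph V) : Prop :=
  ∀ k : ℕ, G.lineGraph.Colorable k ↔
    ∀ L : G.edgeSet → Finset ℕ, (∀ e, k ≤ (L e).card) →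
      ∃ f : G.edgeSet → ℕ, (∀ e, f e ∈ L e) ∧
        ∀ e e', G.lineGraph.Adj e e' → f e ≠ f e'

/-- The list edge colouring conjecture for all graphs isomorphic to a subgraph of `H` whose edges
cannot be properly coloured with `d - 1` colours. -/
def SubgraphsToo {V : Type} (H : SimpleGraph V) (d : ℕ) : Prop :=
  ∀ (W : Type) (G : SimpleGraph W) (φ : W → V), Function.Injective φ →
    (∀ u v, G.Adj u v → H.Adj (φ u) (φ v)) → ¬ G.lineGraph.Colorable (d - 1) →
    ListEdgeConjectureFor G

/-- `F 0, …, F (d - 1)` is a 1-factorization of the simple graph `G`: the neighbours of `v` are the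
`d` different vertices `F 0 v, …, F (d - 1) v`, and each `F i` is an involution. -/
def IsFactorizationOf {V : Type} (G : SimpleGraph V) {d : ℕ} (F : Fin d → V → V) : Prop :=
  (∀ i v, F i (F i v) = v) ∧ (∀ v i j, F i v = F j v → i = j) ∧
    ∀ v w, G.Adj v w ↔ ∃ i, F i v = w

open Classical in
/-- The signed number of the proper edge colourings with `d` colours. Such a colouring is a family of
permutations `σ v` of the colours, where `σ v i` is the colour of the edge joining `v` and `F i v`
(so `σ (F i v) i = σ v i`); it is counted with the product of the signs of the `σ v`. -/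
noncomputable def signedNumber {d : ℕ} {V : Type} [Fintype V] (F : Fin d → V → V) : ℤ :=
  ∑ σ ∈ Finset.univ.filter (fun σ : V → Equiv.Perm (Fin d) => ∀ v i, σ (F i v) i = σ v i),
    ∏ v, ((Equiv.Perm.sign (σ v) : ℤˣ) : ℤ)

/-- The covering graph with vertex set `V × Ω` given by the permutation voltages `β v w`: an edge
`{v, w}` lifts to the edges `{(v, ω), (w, β v w • ω)}`. -/
def cover {V Q Ω : Type} [Group Q] [MulAction Q Ω] (G : SimpleGraph V) (β : V → V → Q) :
    SimpleGraph (V × Ω) :=
  SimpleGraph.fromRel fun x y => G.Adj x.1 y.1 ∧ β x.1 y.1 • x.2 = y.2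

/-- Splicing: the vertices `none` of `G` and `H` are deleted and every neighbour `v` of the first one
is joined to `φ v`, where `φ` is a bijection between the neighbours. -/
def splice {V W : Type} (G : SimpleGraph (Option V)) (H : SimpleGraph (Option W)) (φ : V → W) :
    SimpleGraph (V ⊕ W) :=
  SimpleGraph.fromRel fun x y => match x, y with
    | Sum.inl v, Sum.inl v' => G.Adj (some v) (some v')
    | Sum.inr w, Sum.inr w' => H.Adj (some w) (some w')
    | Sum.inl v, Sum.inr w => G.Adj none (some v) ∧ φ v = w
    | Sum.inr _, Sum.inl _ => False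

/-- Switching: the edges `ab` and `ce` are replaced by the edges `ac` and `be`. -/
def switch {V : Type} (G : SimpleGraph V) (a b c e : V) : SimpleGraph V :=
  SimpleGraph.fromEdgeSet ((G.edgeSet \ {s(a, b), s(c, e)}) ∪ {s(a, c), s(b, e)})

/-- `ab` and `ce` are disjoint edges of `G` and there are no edges between them. -/
def Apart {V : Type} (G : SimpleGraph V) (a b c e : V) : Prop :=
  G.Adj a b ∧ G.Adj c e ∧ a ≠ c ∧ a ≠ e ∧ b ≠ c ∧ b ≠ e ∧
    ¬ G.Adj a c ∧ ¬ G.Adj a e ∧ ¬ G.Adj b c ∧ ¬ G.Adj b e

/-- The smallest class of `(p - 2)`-regular simple graphs that contains the complement of the cycle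
with `p + 1` vertices, the complete graphs with `p - 1` vertices, and the graphs whose signed number
of edge colourings with `p - 2` colours is not divisible by `p`, and is closed under isomorphism,
disjoint unions, splicing, coverings with `p`-group monodromy, and switching two edges `ab` and `ce`
such that the two ways of switching (to `ac` and `be`, or to `ae` and `bc`) give isomorphic graphs,
for example if `c` and `e` have the same other neighbours. -/
inductive Good (p : ℕ) : (V : Type) → SimpleGraph V → Prop
  | cycleComplement : Good p (Fin (p + 1)) (SimpleGraph.cycleGraph (p + 1))ᶜ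
  | complete (V : Type) [Fintype V] (hV : Fintype.card V = p - 1) : Good p V ⊤
  | signed (V : Type) [Fintype V] (G : SimpleGraph V) (F : Fin (p - 2) → V → V)
      (hF : IsFactorizationOf G F) (hN : ¬ ((p : ℤ) ∣ signedNumber F)) : Good p V G
  | iso (V W : Type) (G : SimpleGraph V) (H : SimpleGraph W) (e : G ≃g H) (h : Good p V G) :
      Good p W H
  | union (V W : Type) (G : SimpleGraph V) (H : SimpleGraph W) (hG : Good p V G)
      (hH : Good p W H) : Good p (V ⊕ W) (SimpleGraph.sum G H)
  | splice (V W : Type) (G : SimpleGraph (Option V)) (H : SimpleGraph (Option W)) (φ : V → W)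
      (hφ : Set.BijOn φ {v | G.Adj none (some v)} {w | H.Adj none (some w)})
      (hG : Good p (Option V) G) (hH : Good p (Option W) H) : Good p (V ⊕ W) (splice G H φ)
  | cover (V Q Ω : Type) [Group Q] [MulAction Q Ω] (G : SimpleGraph V) (β : V → V → Q)
      (hQf : Finite Q) (hΩ : Finite Ω) (hQ : IsPGroup p Q) (hβ : ∀ v w, β w v = (β v w)⁻¹)
      (h : Good p V G) : Good p (V × Ω) (cover G β)
  | switch (V : Type) (G : SimpleGraph V) (a b c e : V) (hA : Apart G a b c e)
      (hi : Nonempty (switch G a b c e ≃g switch G a b e c)) (h : Good p V G) :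
      Good p V (switch G a b c e)

theorem signed_eq {d : ℕ} {V : Type} [Fintype V] (F : Fin d → V → V) :
    signedNumber F = Pool.Agent.TH378.LC.AT F := by
  classical
  unfold signedNumber Pool.Agent.TH378.LC.AT
  refine Finset.sum_congr ?_ fun _ _ => rfl
  ext σ
  rw [Finset.mem_filter, Finset.mem_filter]
  constructor <;> exact fun h => ⟨Finset.mem_univ _, h.2⟩

open Pool.Agent.Y342.LE in
theorem good_NZ {p : ℕ} (hp : p.Prime) (hp2 : p ≠ 2) {V : Type} {G : SimpleGraph V}
    (h : Good p V G) : NZ p (p - 2) G := by
  have h2 := hp.two_le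
  have : Fact p.Prime := ⟨hp⟩
  induction h with
  | cycleComplement => exact NZ_cocycle hp hp2
  | complete V hV => exact NZ_complete hp hp2 V hV
  | @signed V iV G F hF hN =>
    refine ⟨inferInstance, F, ⟨hF.1, ?_, hF.2.1, hF.2.2⟩, ?_⟩
    · intro i v h1
      exact ((hF.2.2 v (F i v)).2 ⟨i, rfl⟩).ne h1.symm
    · intro j
      have e : iV = j := Subsingleton.elim _ _
      subst e
      rw [← signed_eq]
      exact hN
  | iso V W G H e h ih => exact ih.iso e
  | union V W G H hG hH ihG ihH => exact NZ.union hp ihG ihH
  | splice V W G H φ hφ hG hH ihG ihH => exact NZ.spl hp (by omega) φ hφ ihG ihH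
  | cover V Q Ω G β hQf hΩ hQ hβ h ih => exact ih.cover hQ β hβ
  | switch V G a b c e hA hi h ih =>
    obtain ⟨hab, hce, hac, hae, hbc, hbe, nac, nae, nbc, nbe⟩ := hA
    rcases NZ.exchange hp hp2 G a b c e hab hce hac hae hbc hbe nac nae nbc nbe ih with h1 | h1
    · exact h1
    · obtain ⟨f⟩ := hi
      exact h1.iso f.symm

open Pool.Agent.TH378.LC Pool.Agent.W426.LE Pool.Agent.Y342.LE in
theorem conclude {p : ℕ} (hp : p.Prime) (hp2 : p ≠ 2) {V : Type} [Nonempty V] {G : SimpleGraph V}
    (h : NZ p (p - 2) G) : ListEdgeConjectureFor G ∧ SubgraphsToo G (p - 2) := by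
  have h2' := hp.two_le
  obtain ⟨hV, F, hF, hAT⟩ := h
  have := Fintype.ofFinite V
  have hG : fgraph F = G := by
    ext v w
    rw [fgraph_adj F hF.inv hF.ne, hF.adj]
  have h1 : EL.EL (fgraph F) (p - 2) := fam_EL F hF.inv hF.ne hF.inj (by
    intro h0
    exact hAT _ (by rw [h0]; exact dvd_zero _))
  have h2 : ¬ (fgraph F).lineGraph.Colorable (p - 2 - 1) :=
    fam_not_colorable F hF.inv hF.ne hF.inj (by omega)
  rw [hG] at h1 h2
  refine ⟨fun k => EL.lec G (p - 2) h1 h2 k, ?_⟩
  intro W G' φ hφ hG' hc k
  exact EL.lec G' (p - 2) (EL.mono G' G φ hφ hG' (p - 2) h1) hc k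

open Pool.Agent.Y342.LE in
/-- Let `p` be an odd prime. The list edge colouring conjecture holds for every graph `G` in the class
`Good p`, for example for the complement of the cycle with `p + 1` vertices, and for all subgraphs of
`G` whose edges cannot be properly coloured with `p - 3` colours. Moreover, for any two edges `ab` and
`ce` of `G` without edges between them, it holds for at least one of the two graphs obtained from `G`
by replacing them by `ac` and `be`, or by `ae` and `bc`. -/
theorem result (p : ℕ) (hp : p.Prime) (hp2 : p ≠ 2) (V : Type) [Nonempty V] (G : SimpleGraph V)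
    (h : Good p V G) :
    ListEdgeConjectureFor G ∧ SubgraphsToo G (p - 2) ∧
      ∀ a b c e : V, Apart G a b c e →
        (ListEdgeConjectureFor (switch G a b c e) ∨ ListEdgeConjectureFor (switch G a b e c)) := by
  have h1 := good_NZ hp hp2 h
  refine ⟨(conclude hp hp2 h1).1, (conclude hp hp2 h1).2, ?_⟩
  intro a b c e hA
  obtain ⟨hab, hce, hac, hae, hbc, hbe, nac, nae, nbc, nbe⟩ := hA
  rcases NZ.exchange hp hp2 G a b c e hab hce hac hae hbc hbe nac nae nbc nbe h1 with h2 | h2
  · exact Or.inl (conclude hp hp2 h2).1
  · exact Or.inr (conclude hp hp2 h2).1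

end Pool.Agent.Results.MP_2f9829_co.CycleComplements
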