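import Pool.Agent.Y342.LE.Dm

/-!
# The list edge colouring conjecture for random graphs with given bounded degrees

Let `d` be odd and let `δ` be any degree sequence on `{1, …, n}` with all terms at most `d`. Almost
all graphs with the degrees `δ` contain a set of `O(log n)` edges whose deletion leaves a
`d`-edge-choosable graph, which satisfies the list edge colouring conjecture if sufficiently many
vertices have degree `d`. If every positive degree occurs an even number of times (for example for
the `d`-regular graphs), at least a polynomial fraction of these graphs are `d`-edge-choosable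
without any deletion.
-/

set_option autoImplicit false

namespace Pool.Agent.Results.MP_2f9829_co.DegreeSequences

/-- The edges of `G` can be properly coloured from every list assignment with lists of at least `k`
colours. -/
def EdgeChoosable {V : Type} (G : SimpleGraph V) (k : ℕ) : Prop :=
  ∀ L : G.edgeSet → Finset ℕ, (∀ e, k ≤ (L e).card) →
    ∃ f : G.edgeSet → ℕ, (∀ e, f e ∈ L e) ∧ ∀ e e', G.lineGraph.Adj e e' → f e ≠ f e'

/-- The list edge colouring conjecture for the single graph `G`, in the form of the frozen statement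
`S07911`: for every `k`, the edges of `G` can be properly coloured with `k` colours if and only if
`G` has a proper edge colouring from every list assignment with lists of at least `k` colours. -/
def ListEdgeConjectureFor {V : Type} (G : SimpleGraph V) : Prop :=
  ∀ k : ℕ, G.lineGraph.Colorable k ↔ EdgeChoosable G k

/-- The vertex `v` has degree `δ v` in `G`, for every `v`. -/
def Degrees {V : Type} (δ : V → ℕ) (G : SimpleGraph V) : Prop :=
  ∀ v, (G.neighborSet v).ncard = δ v

/-- There is a set `S` of at most `a` edges such that the graph `G - S` is `d`-edge-choosable and,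
if more than `2 a` vertices of `G` have degree `d`, satisfies the list edge colouring conjecture. -/
def AlmostConjecture {V : Type} (d a : ℕ) (G : SimpleGraph V) : Prop :=
  ∃ S : Finset (Sym2 V), S.card ≤ a ∧ EdgeChoosable (G.deleteEdges (S : Set (Sym2 V))) d ∧
    (2 * a < {v | (G.neighborSet v).ncard = d}.ncard →
      ListEdgeConjectureFor (G.deleteEdges (S : Set (Sym2 V))))

theorem not_colorable {V : Type} [Finite V] (G : SimpleGraph V) (v : V) {d : ℕ} (hd : 0 < d)
    (hv : (G.neighborSet v).ncard = d) : ¬ G.lineGraph.Colorable (d - 1) := by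
  rintro ⟨C⟩
  let φ : G.neighborSet v → Fin (d - 1) := fun w => C ⟨s(v, w.1), w.2⟩
  have hφ : Function.Injective φ := by
    intro w w' h
    by_contra hne
    have hne' : w.1 ≠ w'.1 := fun h1 => hne (Subtype.ext h1)
    have hadj : G.lineGraph.Adj (⟨s(v, w.1), w.2⟩ : G.edgeSet) ⟨s(v, w'.1), w'.2⟩ := by
      rw [SimpleGraph.lineGraph_adj_iff_exists]
      refine ⟨fun h1 => hne' ?_, v, Sym2.mem_mk_left _ _, Sym2.mem_mk_left _ _⟩
      have h2 : s(v, w.1) = s(v, w'.1) := congrArg Subtype.val h1
      exact Sym2.congr_right.1 h2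
    exact C.valid hadj h
  have h1 := Nat.card_le_card_of_injective φ hφ
  rw [Nat.card_eq_fintype_card (α := Fin (d - 1)), Fintype.card_fin] at h1
  have h2 : Nat.card (G.neighborSet v) = d := hv
  omega

open Pool.Agent.W426.LE in
theorem conj_of_EL {V : Type} [Finite V] (G : SimpleGraph V) (v : V) {d : ℕ} (hd : 0 < d)
    (hv : (G.neighborSet v).ncard = d) (h : EL.EL G d) : ListEdgeConjectureFor G :=
  fun k => EL.lec G d h (not_colorable G v hd hv) k

theorem exists_free {n a : ℕ} (S : Finset (Sym2 (Fin n))) (hS : S.card ≤ a) (X : Set (Fin n))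
    (ha : 2 * a < X.ncard) : ∃ v ∈ X, ∀ e ∈ S, v ∉ e := by
  classical
  have h1 : (S.biUnion (fun e => Finset.univ.filter (fun v : Fin n => v ∈ e))).card ≤ S.card * 2 := by
    refine Finset.card_biUnion_le_card_mul _ _ _ fun e _ => ?_
    induction e using Sym2.ind with
    | _ x y =>
      refine (Finset.card_le_card (t := {x, y}) fun v hv => ?_).trans Finset.card_le_two
      have h2 := (Finset.mem_filter.1 hv).2
      rw [Finset.mem_insert, Finset.mem_singleton]
      exact Sym2.mem_iff.1 h2
  by_contra h2
  push Not at h2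
  have h3 : X ⊆ ((S.biUnion (fun e => Finset.univ.filter (fun v : Fin n => v ∈ e)) :
      Finset (Fin n)) : Set (Fin n)) := by
    intro v hv
    obtain ⟨e, he, hv⟩ := h2 v hv
    exact Finset.mem_coe.2 (Finset.mem_biUnion.2 ⟨e, he, Finset.mem_filter.2 ⟨Finset.mem_univ _, hv⟩⟩)
  have h4 := Set.ncard_le_ncard h3 (Set.toFinite _)
  rw [Set.ncard_coe_finset] at h4
  omega

open Pool.Agent.Y342.LE.Cfg in
theorem almost_of_Ch {n d a : ℕ} (hd : 0 < d) {G : SimpleGraph (Fin n)} (h : Ch d a G) :
    AlmostConjecture d a G := by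
  obtain ⟨S, hS, h1⟩ := h
  refine ⟨S, hS, h1, fun ha => ?_⟩
  obtain ⟨v, hvX, hv⟩ := exists_free S hS _ ha
  refine conj_of_EL _ v hd ?_ h1
  have hvX' : (G.neighborSet v).ncard = d := hvX
  rw [← hvX']
  congr 1
  ext w
  rw [SimpleGraph.mem_neighborSet, SimpleGraph.mem_neighborSet, SimpleGraph.deleteEdges_adj]
  constructor
  · exact fun h2 => h2.1
  · exact fun h2 => ⟨h2, fun h3 => hv _ (Finset.mem_coe.1 h3) (Sym2.mem_mk_left _ _)⟩

theorem card_mono {n : ℕ} {P Q : SimpleGraph (Fin n) → Prop} (h : ∀ G, P G → Q G) :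
    Nat.card {G : SimpleGraph (Fin n) // P G} ≤ Nat.card {G : SimpleGraph (Fin n) // Q G} :=
  Nat.card_le_card_of_injective (Subtype.map id h) (Subtype.map_injective h Function.injective_id)

/-- Let `d` be odd, `C = 300 d ^ 4`, and let `δ` be any sequence of `n` degrees at most `d` whose sum
is at least `C`.
(1) For every `a`, all but a fraction `(n + 1) ^ C / 2 ^ a` of the graphs with the vertices
`1, …, n` and the degrees `δ` have a set of at most `a` edges whose deletion leaves a
`d`-edge-choosable graph, which satisfies the list edge colouring conjecture if more than `2 a`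
vertices have degree `d`.
(2) In particular, for every `k` this holds with `a = (C + k) * (⌊log₂ (n + 1)⌋ + 1)` for all but a
fraction `(n + 1) ^ (-k)` of these graphs.
(3) If every positive degree occurs an even number of times, at least a fraction `(n + 1) ^ (-C)` of
these graphs are `d`-edge-choosable themselves and, if some vertex has degree `d`, satisfy the
list edge colouring conjecture. -/
theorem result (d : ℕ) (hd : Odd d) (n : ℕ) (δ : Fin n → ℕ) (hδ : ∀ v, δ v ≤ d)
    (hn : 300 * d ^ 4 ≤ ∑ v, δ v) :
    (∀ a, 2 ^ a * Nat.card {G : SimpleGraph (Fin n) // Degrees δ G ∧ ¬ AlmostConjecture d a G} ≤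
      (n + 1) ^ (300 * d ^ 4) * Nat.card {G : SimpleGraph (Fin n) // Degrees δ G}) ∧
    (∀ k a, a = (300 * d ^ 4 + k) * (Nat.log 2 (n + 1) + 1) →
      (n + 1) ^ k *
        Nat.card {G : SimpleGraph (Fin n) // Degrees δ G ∧ ¬ AlmostConjecture d a G} ≤
          Nat.card {G : SimpleGraph (Fin n) // Degrees δ G}) ∧
    ((∀ c, 0 < c → Even (Nat.card {v // δ v = c})) →
      Nat.card {G : SimpleGraph (Fin n) // Degrees δ G} ≤ (n + 1) ^ (300 * d ^ 4) *
        Nat.card {G : SimpleGraph (Fin n) // Degrees δ G ∧ EdgeChoosable G d ∧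
          ((∃ v, δ v = d) → ListEdgeConjectureFor G)}) := by
  have hpart : ∀ a,
      2 ^ a * Nat.card {G : SimpleGraph (Fin n) // Degrees δ G ∧ ¬ AlmostConjecture d a G} ≤
        (n + 1) ^ (300 * d ^ 4) * Nat.card {G : SimpleGraph (Fin n) // Degrees δ G} := by
    intro a
    have h1 := Pool.Agent.Y342.LE.Cfg.final_gen2 d hd δ hδ hn a
    rw [Fintype.card_fin] at h1
    refine le_trans (Nat.mul_le_mul_left _ (card_mono fun G hG =>
      ⟨hG.1, fun h => hG.2 (almost_of_Ch hd.pos h)⟩)) h1
  refine ⟨hpart, fun k a ha => ?_, fun hev => ?_⟩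
  · have h3 := hpart a
    have h4 : (n + 1) ^ (300 * d ^ 4 + k) ≤ 2 ^ a := by
      rw [ha, mul_comm (300 * d ^ 4 + k), pow_mul]
      exact Nat.pow_le_pow_left (Nat.lt_pow_succ_log_self (by norm_num) (n + 1)).le _
    have h5 : (n + 1) ^ (300 * d ^ 4) * ((n + 1) ^ k *
        Nat.card {G : SimpleGraph (Fin n) // Degrees δ G ∧ ¬ AlmostConjecture d a G}) ≤
        (n + 1) ^ (300 * d ^ 4) * Nat.card {G : SimpleGraph (Fin n) // Degrees δ G} := by
      rw [← mul_assoc, ← pow_add]
      exact (Nat.mul_le_mul_right _ h4).trans h3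
    exact Nat.le_of_mul_le_mul_left h5 (Nat.pow_pos (Nat.succ_pos n))
  · have h1 := Pool.Agent.Y342.LE.Cfg.final_sym2 d hd δ hδ hev (by omega)
    rw [Fintype.card_fin] at h1
    refine h1.trans (Nat.mul_le_mul (Nat.pow_le_pow_right (Nat.succ_pos n) (by omega))
      (card_mono fun G hG => ⟨hG.1, hG.2, ?_⟩))
    rintro ⟨v, hv⟩
    exact conj_of_EL G v hd.pos ((hG.1 v).trans hv) hG.2

end Pool.Agent.Results.MP_2f9829_co.DegreeSequences
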