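import Pool.Agent.Y819.ZF.Cls2
import Pool.Agent.Y819.ZF.RelM
import Pool.Agent.Y819.ZF.RelS
import Pool.Agent.Y819.ZF.All
import Pool.Agent.Y431.ZF.Iso
import Pool.Agent.Y212.ZF.Num
import Pool.Agent.Y812.ZF.Uni
import Pool.Agent.Y905.ZF.Oel
import Pool.Agent.Y858.ZF.Sgn
import Pool.Agent.Y592.ZF.Cov
import Pool.Agent.Y427.ZG.Kok
import Pool.Agent.Y427.ZM.Deg
import Pool.Agent.Y445.ZM.Idb
import Pool.Agent.Y889.ZS.Facf
import Pool.Agent.Y925.ZS.Facb
import Pool.Agent.Y672.ZS.Covm
import Pool.Agent.Y672.ZS.Splm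
import Pool.Agent.Y306.ZP.Detc
import Pool.Agent.Y65.ZP.Bip
import Pool.Agent.Y845.ZP.Pwa
import Pool.Agent.Y15.ZP.Pwr
import Pool.Agent.Y64.ZP.Pwf
import Pool.Agent.Y819.ZF.StmP
import Pool.Agent.Y819.ZF.GoodOK
import Pool.Agent.Y819.ZF.Period

/-!
# The list edge colouring conjecture, graph polynomials and zero forcing

Let `p` be an odd prime. Modulo `p` the signed number of the edge colourings of a `(p - 2)`-regular
multigraph with `p - 2` colours is, up to the sign, a linear functional of its graph polynomial. The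
class `Good p` consists of multigraphs for which it is not `0`; it is closed under linear relations
between graph polynomials, under a construction from zero forcing, under covers with `p`-groups and
under splicing. The list edge colouring conjecture holds for the simple graphs in the class.
-/

set_option autoImplicit false

namespace Pool.Agent.Results.MP_2f9829_co.PeriodicCyclePowers

open Finset Pool.Agent.Y819.ZF

/-- The list edge colouring conjecture for the single graph `G`, in the form of the frozen statement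
`S07911`: for every `k`, the edges of `G` can be properly coloured with `k` colours if and only if `G` has
a proper edge colouring from every list assignment with lists of at least `k` colours. -/
def ListEdgeConjectureFor {V : Type} (G : SimpleGraph V) : Prop :=
  ∀ k : ℕ, G.lineGraph.Colorable k ↔
    ∀ L : G.edgeSet → Finset ℕ, (∀ e, k ≤ (L e).card) →
      ∃ f : G.edgeSet → ℕ, (∀ e, f e ∈ L e) ∧
        ∀ e e', G.lineGraph.Adj e e' → f e ≠ f e'

/-- The list edge colouring conjecture for all graphs isomorphic to a subgraph of `H` whose edges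
cannot be properly coloured with `d - 1` colours. -/
def SubgraphsToo {V : Type} (H : SimpleGraph V) (d : ℕ) : Prop :=
  ∀ (W : Type) (G : SimpleGraph W) (φ : W → V), Function.Injective φ →
    (∀ u v, G.Adj u v → H.Adj (φ u) (φ v)) → ¬ G.lineGraph.Colorable (d - 1) →
    ListEdgeConjectureFor G

/-! ### Zero forcing -/

/-- The vertices which are forced by the set `S` in the graph `F`: if a vertex `x` and all its
neighbours except `u` are forced then the neighbour `u` is forced. -/
inductive Forced {V : Type} (F : SimpleGraph V) (S : Set V) : V → Prop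
  | mem (v : V) (h : v ∈ S) : Forced F S v
  | force (x u : V) (hx : Forced F S x) (hxu : F.Adj x u)
      (h : ∀ w, F.Adj x w → w ≠ u → Forced F S w) : Forced F S u

/-- `S` is a zero forcing set of `F`. -/
def IsZeroForcingSet {V : Type} (F : SimpleGraph V) (S : Set V) : Prop := ∀ v, Forced F S v

/-- `ForcingProcess μ Z h m` for a multigraph with `μ v w` edges between `v` and `w`: the vertices
`h 0, …, h (f - 1)` are the current ends of `f` chains and `Z` is the set of the vertices which are not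
yet forced. In a step the end `x = h c` of a chain forces `u ∈ Z` if `x` is not adjacent to `u` and is
joined to all other elements of `Z` by exactly one edge; then `u` becomes the end of the chain and `x`
is deleted. The process ends when `Z` is empty. For two chains `a ≠ b` the number `m a b` is the sum of
the numbers `μ (h a) (h b)` of the edges between their ends, taken every time when one of the two ends
is about to move and at the end of the process. -/
inductive ForcingProcess {V : Type} {f : ℕ} (μ : V → V → ℕ) :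
    Set V → (Fin f → V) → (Fin f → Fin f → ℕ) → Prop
  | done (h : Fin f → V) : ForcingProcess μ ∅ h (fun a b => if a ≠ b then μ (h a) (h b) else 0)
  | step (Z : Set V) (h : Fin f → V) (c : Fin f) (u : V) (m : Fin f → Fin f → ℕ)
      (hu : u ∈ Z) (h0 : μ (h c) u = 0) (h1 : ∀ z ∈ Z, z ≠ u → μ (h c) z = 1)
      (hm : ForcingProcess μ (Z \ {u}) (Function.update h c u) m) :
      ForcingProcess μ Z h (fun a b => m a b + if a ≠ b ∧ (a = c ∨ b = c) then μ (h a) (h b) else 0)

/-! ### The class of good multigraphs -/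

open Classical in
/-- A simple graph as a multigraph: the number of the edges between `v` and `w`. -/
noncomputable def edgeCount {V : Type} (G : SimpleGraph V) : V → V → ℕ :=
  fun v w => if G.Adj v w then 1 else 0

/-- The disjoint union of two multigraphs. -/
def disjointUnion {V W : Type} (μ : V → V → ℕ) (ν : W → W → ℕ) : V ⊕ W → V ⊕ W → ℕ
  | Sum.inl v, Sum.inl v' => μ v v'
  | Sum.inr w, Sum.inr w' => ν w w'
  | _, _ => 0

/-- Splicing: the vertices `none` of two multigraphs are deleted and `c v w` edges between `v` and `w`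
are added, so that `v` and `w` get as many new edges as they lose. -/
def splice {V W : Type} (μ : Option V → Option V → ℕ) (ν : Option W → Option W → ℕ) (c : V → W → ℕ) :
    V ⊕ W → V ⊕ W → ℕ
  | Sum.inl v, Sum.inl v' => μ (some v) (some v')
  | Sum.inr w, Sum.inr w' => ν (some w) (some w')
  | Sum.inl v, Sum.inr w => c v w
  | Sum.inr w, Sum.inl v => c v w

/-- Covers. `κ v w x` is the number of the edges of the base which lead from `v` to `w` with the voltage
`x` in the group `P` (and from `w` to `v` with the voltage `x⁻¹`). Every such edge is covered by one edge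
between `(v, ω)` and `(w, x • ω)` for every point `ω` of the fibre `Ω`, on which `P` acts. -/
noncomputable def coverMult {V P Ω : Type} [Group P] [MulAction P Ω] (κ : V → V → P → ℕ) :
    V × Ω → V × Ω → ℕ :=
  fun a b => ∑ᶠ x : {x : P // x • a.2 = b.2}, κ a.1 b.1 x.1

/-- The graph polynomial of a multigraph modulo `p`. -/
noncomputable def graphPolynomial (p : ℕ) {n : ℕ} (μ : Fin n → Fin n → ℕ) :
    MvPolynomial (Fin n) (ZMod p) :=
  ∏ i, ∏ j, if i < j then (MvPolynomial.X i - MvPolynomial.X j) ^ μ i j else 1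

/-- The sign of a map of `Fin d` to itself; it is `0` if the map is not a permutation. -/
noncomputable def mapSign {d : ℕ} (f : Fin d → Fin d) : ℤ :=
  open Classical in
  if h : Function.Bijective f then ((Equiv.Perm.sign (Equiv.ofBijective f h) : ℤˣ) : ℤ) else 0

open Classical in
/-- `inc v i` is the `i`-th edge at the vertex `v` of a multigraph with the edge set `E`. The proper
colourings of the edges with `d` colours are counted with the product over all vertices `v` of the
signs of the permutations which map `i` to the colour of `inc v i`. -/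
noncomputable def signedNumber {V E : Type} [Fintype V] [Fintype E] {d : ℕ} (inc : V → Fin d → E) : ℤ :=
  ∑ x : E → Fin d, ∏ v, mapSign (fun i => x (inc v i))

/-- The smallest class of `(p - 2)`-regular loopless multigraphs on finite sets (given by the numbers
`μ v w` of the edges between `v` and `w`) with: (complete) the complete graphs with `p - 1` vertices;
(small) all `(p - 2)`-regular multigraphs with two or four vertices; (signed) all
`(p - 2)`-regular multigraphs whose signed number of edge colourings is not divisible by `p`;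
(iso, union, splice, cover) closed under isomorphism, disjoint union, splicing, and covers whose
monodromy group is a `p`-group; (forcing) a `(p - 2)`-regular multigraph with `p - 1 + f` vertices is in
the class if `f` chains force all vertices and the `(p - 2)`-regular multigraph `m` of the chains is in
the class; (relation) a `(p - 2)`-regular multigraph `μ` is in the class if the graph polynomial of a
member of the class is a linear combination of the graph polynomials of multigraphs isomorphic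
to `μ`. -/
inductive Good (p : ℕ) : (V : Type) → (V → V → ℕ) → Prop
  | complete (V : Type) (hV : Nat.card V = p - 1) : Good p V (edgeCount (⊤ : SimpleGraph V))
  | small (V : Type) (hV : Nat.card V = 2 ∨ Nat.card V = 4) (μ : V → V → ℕ)
      (hs : ∀ v w, μ v w = μ w v) (h0 : ∀ v, μ v v = 0) (hreg : ∀ v, ∑ᶠ w, μ v w = p - 2) :
      Good p V μ
  | signed (V E : Type) [Fintype V] [Fintype E] (inc : V → Fin (p - 2) → E)
      (hinj : ∀ v, Function.Injective (inc v))
      (h2 : ∀ e, Nat.card {q : V × Fin (p - 2) // inc q.1 q.2 = e} = 2)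
      (hs : ¬ (p : ℤ) ∣ signedNumber inc) :
      Good p V (fun v w => Nat.card {e : E // v ≠ w ∧ (∃ i, inc v i = e) ∧ ∃ j, inc w j = e})
  | iso (V W : Type) (e : V ≃ W) (μ : V → V → ℕ) (h : Good p V μ) :
      Good p W (fun v w => μ (e.symm v) (e.symm w))
  | union (V W : Type) (μ : V → V → ℕ) (ν : W → W → ℕ) (h₁ : Good p V μ) (h₂ : Good p W ν) :
      Good p (V ⊕ W) (disjointUnion μ ν)
  | splice (V W : Type) (μ : Option V → Option V → ℕ) (ν : Option W → Option W → ℕ) (c : V → W → ℕ)
      (hv : ∀ v, ∑ᶠ w, c v w = μ none (some v)) (hw : ∀ w, ∑ᶠ v, c v w = ν none (some w))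
      (h₁ : Good p (Option V) μ) (h₂ : Good p (Option W) ν) : Good p (V ⊕ W) (splice μ ν c)
  | cover (V P Ω : Type) [Group P] [Finite P] [MulAction P Ω] [Finite Ω] (hP : IsPGroup p P)
      (κ : V → V → P → ℕ) (hκ : ∀ v w x, κ w v x⁻¹ = κ v w x)
      (h : Good p V (fun v w => ∑ᶠ x, κ v w x)) : Good p (V × Ω) (coverMult κ)
  | forcing (V : Type) [Finite V] (f : ℕ) (μ : V → V → ℕ) (hV : Nat.card V = p - 1 + f)
      (hs : ∀ v w, μ v w = μ w v) (h0 : ∀ v, μ v v = 0) (hreg : ∀ v, ∑ᶠ w, μ v w = p - 2)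
      (h : Fin f → V) (hh : Function.Injective h) (m : Fin f → Fin f → ℕ)
      (hF : ForcingProcess μ (Set.range h)ᶜ h m) (hm : Good p (Fin f) m) : Good p V μ
  | relation (n : ℕ) (μ₀ μ : Fin n → Fin n → ℕ) (hs : ∀ v w, μ v w = μ w v) (h0 : ∀ v, μ v v = 0)
      (hreg : ∀ v, ∑ᶠ w, μ v w = p - 2) (h : Good p (Fin n) μ₀)
      (hrel : graphPolynomial p μ₀ ∈ Submodule.span (ZMod p)
        (Set.range fun σ : Equiv.Perm (Fin n) => graphPolynomial p fun v w => μ (σ v) (σ w))) :
      Good p (Fin n) μ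

/-! ### Transfer -/

theorem forced_iff {V : Type} (F : SimpleGraph V) (S : Set V) (v : V) (h : Forced F S v) :
    Pool.Agent.Y819.ZF.Forced F S v := by
  induction h with
  | mem v h => exact Pool.Agent.Y819.ZF.Forced.mem v h
  | force x u hx hxu h ih1 ih2 => exact Pool.Agent.Y819.ZF.Forced.force x u ih1 hxu ih2

theorem process_to {V : Type} [DecidableEq V] {f : ℕ} (μ : V → V → ℕ) (Z : Set V) (h : Fin f → V)
    (m : Fin f → Fin f → ℕ) (hF : ForcingProcess μ Z h m) : ∀ Z' : Finset V, (Z' : Set V) = Z →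
    ForcesM μ Z' h (fun e => m e.1.1 e.1.2) := by
  induction hF with
  | done h =>
    intro Z' hZ'
    rw [Finset.coe_eq_empty] at hZ'
    subst hZ'
    refine Eq.mp (congrArg _ ?_) (ForcesM.done (μ := μ) h)
    funext e
    exact (if_pos e.2.ne).symm
  | step Z h c u m hu h0 h1 hm ih =>
    intro Z' hZ'
    subst hZ'
    have h2 := ForcesM.step (μ := μ) Z' h c u (fun e => m e.1.1 e.1.2) (by simpa using hu) h0
      (fun z hz => h1 z (by simpa using hz)) (ih (Z'.erase u) (by rw [Finset.coe_erase]))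
    refine Eq.mp (congrArg _ ?_) h2
    funext e
    refine congrArg (fun t => m e.1.1 e.1.2 + t) ?_
    by_cases hA : e.1.1 = c ∨ e.1.2 = c
    · rw [if_pos hA]
      exact (if_pos ⟨e.2.ne, hA⟩).symm
    · rw [if_neg hA]
      exact (if_neg fun h3 => hA h3.2).symm

/-- symmetric extension of the multiplicities -/
def ext {f : ℕ} (m : Pool.Agent.H604R2.LEC.Ed f → ℕ) : Fin f → Fin f → ℕ := fun a b =>
  if h : a < b then m ⟨(a, b), h⟩ else if h : b < a then m ⟨(b, a), h⟩ else 0

theorem ext_eq {f : ℕ} (m : Pool.Agent.H604R2.LEC.Ed f → ℕ) : (fun e => ext m e.1.1 e.1.2) = m := by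
  funext e
  unfold ext
  rw [dif_pos e.2]

theorem process_of {V : Type} [DecidableEq V] {f : ℕ} (μ : V → V → ℕ) (hs : ∀ v w, μ v w = μ w v)
    (Z : Finset V) (h : Fin f → V)
    (m : Pool.Agent.H604R2.LEC.Ed f → ℕ) (hF : ForcesM μ Z h m) : ForcingProcess μ Z h (ext m) := by
  induction hF with
  | done h =>
    rw [Finset.coe_empty]
    refine Eq.mp (congrArg _ ?_) (ForcingProcess.done (μ := μ) h)
    funext a b
    unfold ext
    rcases lt_trichotomy a b with hab | hab | hab
    · rw [dif_pos hab]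
      exact if_pos hab.ne
    · subst hab
      rw [dif_neg (lt_irrefl _), dif_neg (lt_irrefl _)]
      exact if_neg fun h3 => h3 rfl
    · rw [dif_neg (not_lt.2 hab.le), dif_pos hab]
      exact (if_pos hab.ne').trans (hs _ _)
  | step Z h c u m hu h0 h1 hm ih =>
    have h2 := ForcingProcess.step (μ := μ) (Z : Set V) h c u (ext m) (by simpa using hu) h0
      (fun z hz => h1 z (by simpa using hz)) (by rw [← Finset.coe_erase]; exact ih)
    refine Eq.mp (congrArg _ ?_) h2
    funext a b
    unfold ext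
    rcases lt_trichotomy a b with hab | hab | hab
    · rw [dif_pos hab, dif_pos hab]
      refine congrArg (fun t => m ⟨(a, b), hab⟩ + t) ?_
      by_cases hA : a = c ∨ b = c
      · exact (if_pos ⟨hab.ne, hA⟩).trans (if_pos hA).symm
      · exact (if_neg fun h3 => hA h3.2).trans (if_neg hA).symm
    · subst hab
      rw [dif_neg (lt_irrefl _), dif_neg (lt_irrefl _), dif_neg (lt_irrefl _), dif_neg (lt_irrefl _)]
      exact (zero_add _).trans (if_neg fun h3 => h3.1 rfl)
    · rw [dif_neg (not_lt.2 hab.le), dif_pos hab, dif_neg (not_lt.2 hab.le), dif_pos hab]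
      refine congrArg (fun t => m ⟨(b, a), hab⟩ + t) ?_
      by_cases hA : b = c ∨ a = c
      · exact ((if_pos ⟨hab.ne', hA.symm⟩).trans (hs _ _)).trans (if_pos hA).symm
      · exact (if_neg fun h3 => hA h3.2.symm).trans (if_neg hA).symm

theorem mapSign_eq {d : ℕ} (f : Fin d → Fin d) :
    mapSign f = Pool.Agent.W426.LE.sg (Equiv.refl (Fin d)) f := by
  classical
  unfold mapSign
  by_cases h : Function.Bijective f
  · rw [dif_pos h, Pool.Agent.W426.LE.sg_of_bij _ _ h]
    have hs' : ∀ (i1 i2 : DecidableEq (Fin d)) (τ τ' : Equiv.Perm (Fin d)), τ = τ' →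
        ((@Equiv.Perm.sign _ i1 _ τ : ℤˣ) : ℤ) = ((@Equiv.Perm.sign _ i2 _ τ' : ℤˣ) : ℤ) :=
      fun i1 i2 τ τ' h => by rw [Subsingleton.elim i1 i2, h]
    exact hs' _ _ _ _ (Equiv.ext fun _ => rfl)
  · rw [dif_neg h, Pool.Agent.W426.LE.sg_of_not _ _ h]

theorem signed_eq {V E : Type} [Fintype V] [Fintype E] {d : ℕ} (inc : V → Fin d → E) :
    signedNumber inc = Pool.Agent.W426.LE.NN (Equiv.refl (Fin d)) inc := by
  unfold signedNumber Pool.Agent.W426.LE.NN
  refine Finset.sum_congr ?_ fun x _ => Finset.prod_congr rfl fun v _ => mapSign_eq _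
  ext x
  simp

theorem good_spec (hDEG : S_DEGM) (hIDB : S_IDBM) (hNUM : S_NUM) (hGME : S_GME) (hUNI : S_UNI) (hCOV : S_COVM) (hSPL : S_SPLM) (hKOK : S_KOK)
    (hSGN : S_SGN) (p : ℕ) (hp : p.Prime) (hp2 : p ≠ 2) (V : Type) (μ : V → V → ℕ) (h : Good p V μ) :
    RegM (p - 2) μ ∧ OK p V μ := by
  have : Fact p.Prime := ⟨hp⟩
  have hp2' := hp.two_le
  have hp3 : 3 ≤ p := by omega
  induction h with
  | complete V hV => exact ⟨Cls.regM_top p hp2' hV, hKOK p hp2 V hV⟩
  | small V hV μ hs h0 hreg =>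
    have : Finite V := Nat.finite_of_card_ne_zero (by omega)
    have h1 : RegM (p - 2) μ := ⟨this, hs, h0, hreg⟩
    exact ⟨h1, Cls.ok_small All.sSMALL p hp2 μ h1 hV⟩
  | signed V E inc hinj h2 hs =>
    refine ⟨Cls.regM_inc inc hinj h2, hSGN p V E inc hinj h2 ?_⟩
    rwa [← signed_eq]
  | iso V W e μ h ih => exact ⟨Cls.regM_iso e μ ih.1, Cls.ok_iso e μ ih.2⟩
  | union V W μ ν h₁ h₂ ih₁ ih₂ =>
    have e1 : disjointUnion μ ν = sumM μ ν := by
      funext a b
      rcases a with a | a <;> rcases b with b | b <;> rfl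
    rw [e1]
    exact ⟨Cls.regM_sum μ ν ih₁.1 ih₂.1, hUNI p hp2 V W μ ν ih₁.1 ih₂.1 ih₁.2 ih₂.2⟩
  | splice V W μ ν c hv hw h₁ h₂ ih₁ ih₂ =>
    have e1 : splice μ ν c = splM μ ν c := by
      funext a b
      rcases a with a | a <;> rcases b with b | b <;> rfl
    rw [e1]
    exact hSPL p hp2 V W μ ν c ih₁.1 ih₂.1 hv hw ih₁.2 ih₂.2
  | cover V P Ω hP κ hκ h ih => exact hCOV p V P Ω hP κ hκ ih.1 ih.2
  | relation n μ₀ μ hs h0 hreg h hrel ih =>
    have hμ : RegM (p - 2) μ := ⟨inferInstance, hs, h0, hreg⟩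
    refine ⟨hμ, ?_⟩
    obtain ⟨ν, ⟨σ, rfl⟩, hν⟩ := RelS.ok_relation Pool.Agent.Y51.ZG.main All.sTRF hNUM p hp2 n μ₀ ih.1 ih.2
      (Set.range fun σ : Equiv.Perm (Fin n) => fun v w => μ (σ v) (σ w)) (by
        rintro _ ⟨σ, rfl⟩
        exact Cls.regM_iso σ.symm μ hμ) (by
        rw [← Set.range_comp]
        exact hrel)
    have h1 := Cls.ok_iso σ _ hν
    simpa using h1
  | forcing V f μ hV hs h0 hreg h hh m hF hm ih =>
    classical
    have hfin : Finite V := inferInstance
    have := Fintype.ofFinite V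
    have hμ : RegM (p - 2) μ := ⟨hfin, hs, h0, hreg⟩
    refine ⟨hμ, ?_⟩
    have h1 := process_to μ _ h m hF (univ.filter fun v => ∀ c, h c ≠ v) (by
      ext v
      simp)
    refine RelM.ok_forcingM Pool.Agent.Y51.ZG.main All.sTRF Pool.Agent.Y438.ZF.alt Pool.Agent.Y726.ZF.blk
      Pool.Agent.Y726.ZF.kz hDEG hIDB hNUM p hp2 f V μ hμ (by rw [← hV, Nat.card_eq_fintype_card]) h hh
      _ h1 ?_
    exact ih.2 f (Equiv.refl _)

theorem subgraphs_of {V : Type} (H : SimpleGraph V) (d : ℕ)
    (h : Pool.Agent.W426.LE.EL.EL H d) : SubgraphsToo H d := by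
  intro W G φ hφ hG hc k
  exact Pool.Agent.W426.LE.EL.lec G d (Pool.Agent.W426.LE.EL.mono G H φ hφ hG d h) hc k

theorem self_of {V : Type} [Finite V] (H : SimpleGraph V) (d : ℕ) (hd : 1 ≤ d)
    (hdeg : ∀ v, (H.neighborSet v).ncard = d)
    (h : Pool.Agent.W426.LE.EL.EL H d) : ListEdgeConjectureFor H ∧ SubgraphsToo H d := by
  classical
  have := Fintype.ofFinite V
  refine ⟨?_, subgraphs_of H d h⟩
  rcases isEmpty_or_nonempty V with hV | hV
  · intro k
    have hE : IsEmpty H.edgeSet := by
      constructor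
      rintro ⟨e, he⟩
      induction e using Sym2.ind with
      | _ a b => exact hV.elim a
    constructor
    · intro _ L _
      exact ⟨fun e => hE.elim e, fun e => hE.elim e, fun e => hE.elim e⟩
    · intro _
      exact ⟨SimpleGraph.Coloring.mk (fun e => hE.elim e) (fun {e} => hE.elim e)⟩
  · refine subgraphs_of H d h V H id Function.injective_id (fun u v h => h) ?_
    refine Pool.Agent.W426.LE.EL.deg H d hd (Classical.arbitrary V) ?_
    rw [← hdeg (Classical.arbitrary V), ← SimpleGraph.card_neighborSet_eq_degree,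
      Set.ncard_eq_toFinset_card', Set.toFinset_card]

theorem good_list (hDEG : S_DEGM) (hIDB : S_IDBM) (hNUM : S_NUM) (hGME : S_GME) (hUNI : S_UNI) (hCOV : S_COVM) (hSPL : S_SPLM) (hKOK : S_KOK)
    (hSGN : S_SGN) (hOEL : S_OEL) (p : ℕ) (hp : p.Prime) (hp2 : p ≠ 2) (V : Type) (G : SimpleGraph V)
    (h : Good p V (edgeCount G)) : ListEdgeConjectureFor G ∧ SubgraphsToo G (p - 2) := by
  have : Fact p.Prime := ⟨hp⟩
  have hp2' := hp.two_le
  obtain ⟨h1, h2⟩ := good_spec hDEG hIDB hNUM hGME hUNI hCOV hSPL hKOK hSGN p hp hp2 V _ h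
  have := h1.fin
  exact self_of G (p - 2) (by omega) (Cls.ind_reg G _ h1) (hOEL p V G h1 h2)

/-- zero forcing sets with two or four elements -/
theorem good_of_forcing (p : ℕ) (hp : p.Prime) (f : ℕ) (hf : f = 2 ∨ f = 4)
    (V : Type) (F : SimpleGraph V) (hV : Nat.card V = p - 1 + f)
    (hreg : ∀ v, (F.neighborSet v).ncard = f) (S : Set V) (hS : S.ncard = f) (hS2 : IsZeroForcingSet F S) :
    Good p V (edgeCount Fᶜ) := by
  classical
  have : Fact p.Prime := ⟨hp⟩
  have hp2' := hp.two_le
  have hfin : Finite V := Nat.finite_of_card_ne_zero (by omega)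
  have := Fintype.ofFinite V
  have hSc : Fintype.card S = f := by
    rw [← hS, Set.ncard_eq_toFinset_card', Set.toFinset_card]
  let α : Fin f ≃ S := (Fintype.equivFinOfCardEq hSc).symm
  let h : Fin f → V := fun c => (α c).1
  have hinj : Function.Injective h := fun a b hab => α.injective (Subtype.ext hab)
  have hZ : ∀ v, v ∉ (univ.filter fun v => ∀ c, h c ≠ v) ↔ ∃ c, h c = v := by
    intro v
    rw [mem_filter]
    push Not
    constructor
    · intro h1
      exact h1 (mem_univ _)
    · intro h1 _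
      exact h1
  have hSeq : S = {v | v ∉ (univ.filter fun v => ∀ c, h c ≠ v)} := by
    ext v
    rw [Set.mem_setOf_eq, hZ]
    constructor
    · intro hv
      exact ⟨α.symm ⟨v, hv⟩, by show (α (α.symm ⟨v, hv⟩)).1 = v; rw [Equiv.apply_symm_apply]⟩
    · rintro ⟨c, rfl⟩
      exact (α c).2
  obtain ⟨m, hm⟩ := Pool.Agent.Y429.ZF.CHAIN.main V f F _ h hinj hZ (by
    rw [← hSeq]
    exact fun v => forced_iff F S v (hS2 v))
  have hdeg := Asm.main_deg Pool.Agent.Y438.ZF.deg p f V F (by rw [← hV, Nat.card_eq_fintype_card]) hreg h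
    hinj m hm (fun c => fun e => instDecidableOr)
  have hμ : RegM (p - 2) (edgeCount Fᶜ) := Cls.regM_compl p f hp2' F hV hreg
  have hP := process_of (edgeCount Fᶜ) hμ.symm _ h m (RelM.forces_simple F _ h m hm hinj (by
    intro c hc
    rw [mem_filter] at hc
    exact hc.2 c rfl))
  have hset : ((univ.filter fun v => ∀ c, h c ≠ v : Finset V) : Set V) = (Set.range h)ᶜ := by
    ext v
    simp
  rw [hset] at hP
  refine Good.forcing V f (edgeCount Fᶜ) hV hμ.symm hμ.diag hμ.reg h hinj (ext m) hP (Good.small (Fin f) (by simpa using hf) _ ?_ ?_ ?_)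
  · intro a b
    unfold ext
    rcases lt_trichotomy a b with hab | hab | hab
    · rw [dif_pos hab, dif_neg (not_lt.2 hab.le), dif_pos hab]
    · subst hab
      rfl
    · rw [dif_neg (not_lt.2 hab.le), dif_pos hab, dif_pos hab]
  · intro a
    unfold ext
    rw [dif_neg (lt_irrefl _), dif_neg (lt_irrefl _)]
  · intro a
    rw [← hdeg a, finsum_eq_sum_of_fintype]
    rw [← Finset.add_sum_erase univ _ (mem_univ a)]
    have h0 : ext m a a = 0 := by
      unfold ext
      rw [dif_neg (lt_irrefl _), dif_neg (lt_irrefl _)]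
    rw [h0, zero_add]
    refine Finset.sum_bij' (fun w hw => (if hcw : a < w then ⟨(a, w), hcw⟩ else
      ⟨(w, a), lt_of_le_of_ne (not_lt.1 hcw) (Finset.ne_of_mem_erase hw)⟩ : Pool.Agent.H604R2.LEC.Ed f))
      (fun x _ => if x.1.1 = a then x.1.2 else x.1.1) ?_ ?_ ?_ ?_ ?_
    · intro w hw
      rw [mem_filter]
      refine ⟨mem_univ _, ?_⟩
      split_ifs
      · exact Or.inl rfl
      · exact Or.inr rfl
    · intro x hx
      rw [mem_filter] at hx
      rw [mem_erase]
      refine ⟨?_, mem_univ _⟩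
      have h2 := x.2
      split_ifs with h3
      · rw [← h3]
        exact h2.ne'
      · exact h3
    · intro w hw
      by_cases hcw : a < w
      · rw [dif_pos hcw]
        simp
      · rw [dif_neg hcw]
        simp only
        rw [if_neg (Finset.ne_of_mem_erase hw)]
    · intro x hx
      rw [mem_filter] at hx
      have h2 := x.2
      by_cases h3 : x.1.1 = a
      · have h4 : (if x.1.1 = a then x.1.2 else x.1.1) = x.1.2 := if_pos h3
        apply Subtype.ext
        simp only [h4]
        have h5 : a < x.1.2 := by rw [← h3]; exact h2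
        rw [dif_pos h5]
        exact Prod.ext h3.symm rfl
      · have h4 : (if x.1.1 = a then x.1.2 else x.1.1) = x.1.1 := if_neg h3
        have h6 : x.1.2 = a := hx.2.resolve_left h3
        apply Subtype.ext
        simp only [h4]
        have h5 : ¬ a < x.1.1 := by rw [← h6]; exact not_lt.2 h2.le
        rw [dif_neg h5]
        exact Prod.ext rfl h6.symm
    · intro w hw
      by_cases hcw : a < w
      · rw [dif_pos hcw]
        unfold ext
        rw [dif_pos hcw]
      · have hwa : w < a := lt_of_le_of_ne (not_lt.1 hcw) (Finset.ne_of_mem_erase hw)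
        rw [dif_neg hcw]
        unfold ext
        rw [dif_neg hcw, dif_pos hwa]

/-! ### Relations -/

theorem exchange (hDEG : S_DEGM) (hIDB : S_IDBM) (hNUM : S_NUM) (hGME : S_GME) (hUNI : S_UNI)
    (hCOV : S_COVM) (hSPL : S_SPLM) (hKOK : S_KOK) (hSGN : S_SGN) (hOEL : S_OEL) (p : ℕ)
    (hp : p.Prime) (hp2 : p ≠ 2) (n : ℕ) (μ₀ : Fin n → Fin n → ℕ) (𝒢 : Set (SimpleGraph (Fin n)))
    (h₀ : Good p (Fin n) μ₀) (h𝒢 : ∀ G ∈ 𝒢, ∀ v, (G.neighborSet v).ncard = p - 2)
    (hrel : graphPolynomial p μ₀ ∈ Submodule.span (ZMod p)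
      ((fun G => graphPolynomial p (edgeCount G)) '' 𝒢)) :
    ∃ G ∈ 𝒢, ListEdgeConjectureFor G ∧ SubgraphsToo G (p - 2) := by
  have : Fact p.Prime := ⟨hp⟩
  have hp2' := hp.two_le
  obtain ⟨h1, h2⟩ := good_spec hDEG hIDB hNUM hGME hUNI hCOV hSPL hKOK hSGN p hp hp2 _ μ₀ h₀
  obtain ⟨ν, ⟨G, hG, rfl⟩, hν⟩ := RelS.ok_relation Pool.Agent.Y51.ZG.main All.sTRF hNUM p hp2 n μ₀ h1 h2
    ((fun G : SimpleGraph (Fin n) => edgeCount G) '' 𝒢) (by
      rintro _ ⟨G, hG, rfl⟩
      exact Cls.regM_ind G (p - 2) (h𝒢 G hG)) (by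
      rw [Set.image_image]
      exact hrel)
  have h3 : RegM (p - 2) (edgeCount G) := Cls.regM_ind G (p - 2) (h𝒢 G hG)
  exact ⟨G, hG, self_of G (p - 2) (by omega) (h𝒢 G hG) (hOEL p (Fin n) G h3 hν)⟩

/-! ### Powers of the Hamiltonian cycle -/

theorem good_of_ok (hFACF : S_FACF) (p : ℕ) (hp : p.Prime) (V : Type) (μ : V → V → ℕ)
    (hμ : RegM (p - 2) μ) (h : OK p V μ) : Good p V μ := by
  classical
  have : Fact p.Prime := ⟨hp⟩
  have := hμ.fin
  have hV : Fintype V := Fintype.ofFinite V
  obtain ⟨F, hF, hAT⟩ := hFACF p V μ hμ h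
  obtain ⟨E, hE, inc, hinj, h2, hN, hm⟩ := inc_of_fac μ F hF
  have h3 := Good.signed (p := p) V E inc hinj h2 (by
    rw [signed_eq, hN]
    exact hAT hV)
  rwa [hm] at h3

theorem bipS_symm {k : ℕ} (M : Fin k → Fin k → ℕ) (v w : Fin (k + k)) : bipS M v w = bipS M w v := by
  unfold bipS
  induction v using Fin.addCases with
  | left i =>
    induction w using Fin.addCases with
    | left i' => simp only [Fin.addCases_left]
    | right j => simp only [Fin.addCases_left, Fin.addCases_right]
  | right j =>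
    induction w using Fin.addCases with
    | left i' => simp only [Fin.addCases_left, Fin.addCases_right]
    | right j' => simp only [Fin.addCases_right]

theorem bipS_diag {k : ℕ} (M : Fin k → Fin k → ℕ) (v : Fin (k + k)) : bipS M v v = 0 := by
  unfold bipS
  induction v using Fin.addCases with
  | left i => simp only [Fin.addCases_left]
  | right j => simp only [Fin.addCases_right]

theorem regM_crown (k N d : ℕ) (hN : 1 ≤ N) (hd : k * N - 1 = d) (hk : 1 ≤ k) :
    RegM d (bipS fun i j : Fin k => if i = j then N - 1 else N) := by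
  have hrow : ∀ i : Fin k, ∑ j : Fin k, (if i = j then N - 1 else N) = d := by
    intro i
    have h1 : ∑ j : Fin k, (if i = j then N - 1 else N) + 1 = k * N := by
      rw [← Finset.add_sum_erase univ _ (mem_univ i), if_pos rfl]
      have h2 : ∑ j ∈ univ.erase i, (if i = j then N - 1 else N) = (k - 1) * N := by
        rw [Finset.sum_congr rfl fun j hj => if_neg (ne_of_mem_erase hj).symm, Finset.sum_const,
          card_erase_of_mem (mem_univ i), Finset.card_univ, Fintype.card_fin, smul_eq_mul]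
      rw [h2]
      obtain ⟨k', rfl⟩ : ∃ k', k = k' + 1 := ⟨k - 1, by omega⟩
      obtain ⟨N', rfl⟩ : ∃ N', N = N' + 1 := ⟨N - 1, by omega⟩
      simp only [Nat.add_sub_cancel]
      ring
    omega
  have hcol : ∀ j : Fin k, ∑ i : Fin k, (if i = j then N - 1 else N) = d := by
    intro j
    rw [← hrow j]
    refine Finset.sum_congr rfl fun i _ => ?_
    exact if_congr eq_comm rfl rfl
  refine ⟨inferInstance, bipS_symm _, bipS_diag _, ?_⟩
  intro v
  rw [finsum_eq_sum_of_fintype, Fin.sum_univ_add]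
  unfold bipS
  induction v using Fin.addCases with
  | left i =>
    simp only [Fin.addCases_left, Fin.addCases_right, Finset.sum_const_zero, zero_add]
    exact hrow i
  | right j =>
    simp only [Fin.addCases_left, Fin.addCases_right, Finset.sum_const_zero, add_zero]
    exact hcol j

theorem good_crown (hDETC : S_DETC) (hBIP : S_BIP) (hFACF : S_FACF) (hNUM : S_NUM) (p : ℕ)
    (hp : p.Prime) (hp2 : p ≠ 2) (k N : ℕ) (hkN : k * N = p - 1) :
    Good p (Fin (k + k)) (bipS fun i j : Fin k => if i = j then N - 1 else N) := by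
  have : Fact p.Prime := ⟨hp⟩
  have hp2' := hp.two_le
  have hk : 1 ≤ k := by
    rcases Nat.eq_zero_or_pos k with h | h
    · subst h
      omega
    · exact h
  have hN : 1 ≤ N := by
    rcases Nat.eq_zero_or_pos N with h | h
    · subst h
      omega
    · exact h
  have hNp : N < p := by
    have : N ≤ k * N := Nat.le_mul_of_pos_left N hk
    omega
  have hμ : RegM (p - 2) (bipS fun i j : Fin k => if i = j then N - 1 else N) :=
    regM_crown k N (p - 2) hN (by omega) hk
  refine good_of_ok hFACF p hp _ _ hμ ?_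
  have h1 := hBIP p k (fun i j => if i = j then N - 1 else N) (by
    intro i j
    split_ifs <;> omega) (hDETC p hp2 k N hkN)
  intro n e
  have hn : n = k + k := by
    have := Fintype.card_congr e
    rw [Fintype.card_fin, Fintype.card_fin] at this
    exact this.symm
  subst hn
  exact hNUM p (p - 2) _ _ hμ.symm _ (Equiv.refl _) e h1

theorem good_pow (hDETC : S_DETC) (hBIP : S_BIP) (hPWA : S_PWA) (hPWR : S_PWR) (hPWF : S_PWF)
    (hFACF : S_FACF) (hNUM : S_NUM) (p : ℕ) (hp : p.Prime) (hp2 : p ≠ 2) (k : ℕ) (hk : k ∣ p - 1) :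
    Good p (ZMod (p - 1 + 2 * k)) (edgeCount (powC (p - 1 + 2 * k) k)ᶜ) := by
  classical
  obtain ⟨N, hN⟩ := hk
  have hp2' := hp.two_le
  have hp3 : 3 ≤ p := by omega
  have hk1 : 1 ≤ k := by
    rcases Nat.eq_zero_or_pos k with h | h
    · subst h
      omega
    · exact h
  have hN1 : 1 ≤ N := by
    rcases Nat.eq_zero_or_pos N with h | h
    · subst h
      omega
    · exact h
  generalize hn : p - 1 + 2 * k = n
  have hn2 : n = k * N + 2 * k := by omega
  have : NeZero n := ⟨by omega⟩
  have hμ : RegM (p - 2) (edgeCount (powC n k)ᶜ) := by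
    have h1 := hPWR n k (by omega)
    have h2 : n - 1 - 2 * k = p - 2 := by omega
    rw [h2] at h1
    exact h1
  have h1 := hPWF k N n hk1 hN1 hn2 (edgeCount (powC n k)ᶜ) hμ.symm (fun a b hab hb =>
    hPWA n k a b (by omega) hab hb)
  have hval : ∀ c : Fin (k + k), ((c : ℕ) : ZMod n).val = (c : ℕ) := fun c =>
    ZMod.val_cast_of_lt (by have := c.2; omega)
  have hinj : Function.Injective (fun c : Fin (k + k) => ((c : ℕ) : ZMod n)) := by
    intro a b hab
    have h2 := congrArg ZMod.val hab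
    simp only [hval] at h2
    exact Fin.ext h2
  have h2 := process_of (edgeCount (powC n k)ᶜ) hμ.symm _ _ _ h1
  have hset : ((univ.filter fun v : ZMod n => 2 * k ≤ v.val : Finset _) : Set _) =
      (Set.range fun c : Fin (k + k) => ((c : ℕ) : ZMod n))ᶜ := by
    ext v
    rw [Finset.mem_coe, mem_filter, Set.mem_compl_iff, Set.mem_range]
    constructor
    · rintro ⟨-, h3⟩ ⟨c, rfl⟩
      rw [hval] at h3
      have := c.2
      omega
    · intro h3
      refine ⟨mem_univ _, ?_⟩
      by_contra h4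
      refine h3 ⟨⟨v.val, by omega⟩, ?_⟩
      exact ZMod.natCast_rightInverse v
  rw [hset] at h2
  have hext : ext (fun e : Pool.Agent.H604R2.LEC.Ed (k + k) =>
      bipS (fun i j : Fin k => if i = j then N - 1 else N) e.1.1 e.1.2) =
      bipS (fun i j : Fin k => if i = j then N - 1 else N) := by
    funext a b
    unfold ext
    rcases lt_trichotomy a b with hab | hab | hab
    · rw [dif_pos hab]
    · subst hab
      rw [dif_neg (lt_irrefl _), dif_neg (lt_irrefl _), bipS_diag]
    · rw [dif_neg (not_lt.2 hab.le), dif_pos hab]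
      exact bipS_symm _ _ _
  rw [hext] at h2
  exact Good.forcing (p := p) (ZMod n) (k + k) _ (by
    rw [Nat.card_eq_fintype_card, ZMod.card]
    omega) hμ.symm hμ.diag hμ.reg _ hinj _ h2
    (good_crown hDETC hBIP hFACF hNUM p hp hp2 k N (by omega))

/-! ### Larger powers of the Hamiltonian cycle -/

open Classical in
theorem ext_sum {f : ℕ} (m : Pool.Agent.H604R2.LEC.Ed f → ℕ) (a : Fin f) :
    ∑ w, ext m a w =
      ∑ e ∈ univ.filter (fun e : Pool.Agent.H604R2.LEC.Ed f => e.1.1 = a ∨ e.1.2 = a), m e := by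
  rw [← Finset.add_sum_erase univ _ (mem_univ a)]
  have h0 : ext m a a = 0 := by
    unfold ext
    rw [dif_neg (lt_irrefl _), dif_neg (lt_irrefl _)]
  rw [h0, zero_add]
  refine Finset.sum_bij' (fun w hw => (if hcw : a < w then ⟨(a, w), hcw⟩ else
    ⟨(w, a), lt_of_le_of_ne (not_lt.1 hcw) (Finset.ne_of_mem_erase hw)⟩ : Pool.Agent.H604R2.LEC.Ed f))
    (fun x _ => if x.1.1 = a then x.1.2 else x.1.1) ?_ ?_ ?_ ?_ ?_
  · intro w hw
    rw [mem_filter]
    refine ⟨mem_univ _, ?_⟩
    split_ifs
    · exact Or.inl rfl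
    · exact Or.inr rfl
  · intro x hx
    rw [mem_filter] at hx
    rw [mem_erase]
    refine ⟨?_, mem_univ _⟩
    have h2 := x.2
    split_ifs with h3
    · rw [← h3]
      exact h2.ne'
    · exact h3
  · intro w hw
    by_cases hcw : a < w
    · rw [dif_pos hcw]
      simp
    · rw [dif_neg hcw]
      simp only
      rw [if_neg (Finset.ne_of_mem_erase hw)]
  · intro x hx
    rw [mem_filter] at hx
    have h2 := x.2
    by_cases h3 : x.1.1 = a
    · have h4 : (if x.1.1 = a then x.1.2 else x.1.1) = x.1.2 := if_pos h3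
      apply Subtype.ext
      simp only [h4]
      have h5 : a < x.1.2 := by rw [← h3]; exact h2
      rw [dif_pos h5]
      exact Prod.ext h3.symm rfl
    · have h4 : (if x.1.1 = a then x.1.2 else x.1.1) = x.1.1 := if_neg h3
      have h6 : x.1.2 = a := hx.2.resolve_left h3
      apply Subtype.ext
      simp only [h4]
      have h5 : ¬ a < x.1.1 := by rw [← h6]; exact not_lt.2 h2.le
      rw [dif_neg h5]
      exact Prod.ext rfl h6.symm
  · intro w hw
    by_cases hcw : a < w
    · rw [dif_pos hcw]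
      unfold ext
      rw [dif_pos hcw]
    · have hwa : w < a := lt_of_le_of_ne (not_lt.1 hcw) (Finset.ne_of_mem_erase hw)
      rw [dif_neg hcw]
      unfold ext
      rw [dif_neg hcw, dif_pos hwa]

theorem ext_fun {f : ℕ} (ν : Fin f → Fin f → ℕ) (hs : ∀ a b, ν a b = ν b a) (h0 : ∀ a, ν a a = 0) :
    ext (fun e => ν e.1.1 e.1.2) = ν := by
  funext a b
  unfold ext
  rcases lt_trichotomy a b with hab | hab | hab
  · rw [dif_pos hab]
  · subst hab
    rw [dif_neg (lt_irrefl _), dif_neg (lt_irrefl _), h0]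
  · rw [dif_neg (not_lt.2 hab.le), dif_pos hab]
    exact hs _ _

theorem good_step (hDEG : S_DEGM) (p : ℕ) (hp : 2 ≤ p) {V : Type} [Fintype V] [DecidableEq V]
    (f : ℕ) (μ : V → V → ℕ) (hμ : RegM (p - 2) μ) (hV : Fintype.card V = p - 1 + f)
    (h : Fin f → V) (hinj : Function.Injective h) (ν : Fin f → Fin f → ℕ) (hs : ∀ a b, ν a b = ν b a)
    (h0 : ∀ a, ν a a = 0)
    (hF : ForcesM μ (univ.filter fun v => ∀ c, h c ≠ v) h (fun e => ν e.1.1 e.1.2)) :
    RegM (p - 2) ν ∧ (Good p (Fin f) ν → Good p V μ) := by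
  classical
  have hcur : ∀ v, Cur (univ.filter fun v => ∀ c, h c ≠ v) h v := by
    intro v
    unfold Cur
    by_cases hv : ∃ c, h c = v
    · exact Or.inr hv
    · refine Or.inl ?_
      rw [mem_filter]
      exact ⟨mem_univ _, fun c hc => hv ⟨c, hc⟩⟩
  have hdegM : ∀ v, degM μ (univ.filter fun v => ∀ c, h c ≠ v) h v = p - 2 := by
    intro v
    unfold degM
    rw [← hμ.reg v, finsum_eq_sum_of_fintype]
    refine Finset.sum_congr ?_ fun _ _ => rfl
    ext w
    rw [mem_filter]
    exact ⟨fun _ => mem_univ _, fun _ => ⟨mem_univ _, hcur w⟩⟩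
  have hcard : (univ.filter fun v => ∀ c, h c ≠ v).card = p - 1 := by
    have h1 : (univ.filter fun v => ∀ c, h c ≠ v) = univ \ (univ.image h) := by
      ext v
      rw [mem_filter, mem_sdiff, mem_image]
      constructor
      · rintro ⟨-, h2⟩
        exact ⟨mem_univ _, fun ⟨c, _, hc⟩ => h2 c hc⟩
      · rintro ⟨-, h2⟩
        exact ⟨mem_univ _, fun c hc => h2 ⟨c, mem_univ _, hc⟩⟩
    rw [h1, Finset.card_sdiff_of_subset (subset_univ _), Finset.card_image_of_injective _ hinj,
      Finset.card_univ, hV, Finset.card_univ, Fintype.card_fin]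
    omega
  have hdeg := hDEG V f μ _ h _ hμ.symm hμ.diag hinj (by
    intro c hc
    rw [mem_filter] at hc
    exact hc.2 c rfl) (by
    intro v _
    rw [hdegM, hcard]
    omega) hF
  have hP := process_of μ hμ.symm _ h _ hF
  rw [ext_fun ν hs h0] at hP
  have hset : ((univ.filter fun v => ∀ c, h c ≠ v : Finset V) : Set V) = (Set.range h)ᶜ := by
    ext v
    simp
  rw [hset] at hP
  refine ⟨⟨inferInstance, hs, h0, ?_⟩, fun hg => ?_⟩
  · intro a
    rw [finsum_eq_sum_of_fintype, ← hdegM (h a), ← hdeg a]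
    have h2 := ext_sum (fun e => ν e.1.1 e.1.2) a
    rw [ext_fun ν hs h0] at h2
    rw [h2]
  · exact Good.forcing (p := p) V f μ (by rw [Nat.card_eq_fintype_card, hV]) hμ.symm hμ.diag hμ.reg h
      hinj ν hP hg

/-- the residues and the numbers -/
def zf (n : ℕ) [NeZero n] : ZMod n ≃ Fin n where
  toFun v := ⟨v.val, ZMod.val_lt v⟩
  invFun a := ((a.val : ℕ) : ZMod n)
  left_inv v := ZMod.natCast_zmod_val v
  right_inv a := Fin.ext (ZMod.val_cast_of_lt a.2)

theorem zf_eq (hPWA : S_PWA) (hPWR : S_PWR) (n k : ℕ) [NeZero n] (h : 2 * k < n) :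
    (fun v w => edgeCount (powC n k)ᶜ ((zf n).symm v) ((zf n).symm w)) =
      fun a b : Fin n => Period.gN n k a.val b.val := by
  have h1 : ∀ a b : Fin n, a.val ≤ b.val → edgeCount (powC n k)ᶜ ((zf n).symm a) ((zf n).symm b) =
      Period.gN n k a.val b.val := by
    intro a b hab
    have h2 : edgeCount (powC n k)ᶜ ((zf n).symm a) ((zf n).symm b) =
        if k < b.val - a.val ∧ b.val - a.val + k < n then 1 else 0 := hPWA n k a.val b.val h hab b.2
    rw [h2]
    unfold Period.gN
    refine if_congr ?_ rfl rfl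
    omega
  funext a b
  rcases Nat.le_total a.val b.val with hab | hab
  · exact h1 a b hab
  · have h3 : edgeCount (powC n k)ᶜ ((zf n).symm a) ((zf n).symm b) =
        edgeCount (powC n k)ᶜ ((zf n).symm b) ((zf n).symm a) := (hPWR n k h).symm _ _
    rw [h3, h1 b a hab, Period.gN_symm]

theorem good_gN (hDEG : S_DEGM) (hDETC : S_DETC) (hBIP : S_BIP) (hPWA : S_PWA) (hPWR : S_PWR)
    (hPWF : S_PWF) (hFACF : S_FACF) (hNUM : S_NUM) (p : ℕ) (hp : p.Prime) (hp2 : p ≠ 2) (d : ℕ)
    (hd : d ∣ p - 1) : ∀ j k n : ℕ, k = d + j * (p - 1) → n = p - 1 + 2 * k →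
      Good p (Fin n) (fun a b : Fin n => Period.gN n k a.val b.val) := by
  have hp2' := hp.two_le
  have hd1 : 1 ≤ d := by
    rcases Nat.eq_zero_or_pos d with h | h
    · subst h
      omega
    · exact h
  intro j
  induction j with
  | zero =>
    intro k n hk hn
    have hkd : k = d := by omega
    subst hkd hn
    have : NeZero (p - 1 + 2 * k) := ⟨by omega⟩
    have h1 := Good.iso (p := p) _ _ (zf (p - 1 + 2 * k)) _
      (good_pow hDETC hBIP hPWA hPWR hPWF hFACF hNUM p hp hp2 k hd)
    rwa [zf_eq hPWA hPWR _ k (by omega)] at h1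
  | succ j ih =>
    intro k n hk hn
    have hk' : (d + j * (p - 1)) + (p - 1) = k := by
      rw [hk]
      ring
    have hkr : p - 1 ≤ k := by omega
    have : NeZero n := ⟨by omega⟩
    have hn' : 2 * k ≤ n := by omega
    have ih' := ih (d + j * (p - 1)) (p - 1 + 2 * (d + j * (p - 1))) rfl rfl
    have hreg1 : RegM (p - 2) (fun a b : Fin n => Period.gN n k a.val b.val) := by
      have h1 := hPWR n k (by omega)
      have h2 : n - 1 - 2 * k = p - 2 := by omega
      rw [h2] at h1
      have h3 := Cls.regM_iso (zf n) _ h1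
      have h4 := zf_eq hPWA hPWR n k (by omega)
      rw [← h4]
      exact h3
    obtain ⟨hA1, hA2⟩ := good_step hDEG p hp2' (2 * k) (fun a b : Fin n => Period.gN n k a.val b.val)
      hreg1 (by rw [Fintype.card_fin, hn]) (Period.HA k n hn') (Period.HA_inj k n hn')
      (fun a b : Fin (2 * k) => Period.bN p k a.val b.val) (fun a b => Period.bN_symm _ _ _ _)
      (fun a => by
        unfold Period.bN
        exact if_neg (by omega))
      (Period.forcesA p (p - 1) k n (by omega) (by omega) hkr hn hn')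
    refine hA2 ?_
    have hf' : p - 1 + 2 * (d + j * (p - 1)) ≤ 2 * k := by omega
    obtain ⟨hB1, hB2⟩ := good_step hDEG p hp2' (p - 1 + 2 * (d + j * (p - 1)))
      (fun a b : Fin (2 * k) => Period.bN p k a.val b.val)
      hA1 (by rw [Fintype.card_fin]; omega) (fun c => Fin.castLE hf' c) (Fin.castLE_injective hf')
      (fun a b => Period.gN (p - 1 + 2 * (d + j * (p - 1))) (d + j * (p - 1)) a.val b.val)
      (fun a b => Period.gN_symm _ _ _ _)
      (fun a => Period.gN_zero (by omega))
      (Period.forcesB p (p - 1) k (p - 1 + 2 * (d + j * (p - 1))) (d + j * (p - 1)) (by omega)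
        (by omega) hkr (by omega) (by omega) hf')
    exact hB2 ih'

theorem good_powers (hDEG : S_DEGM) (hDETC : S_DETC) (hBIP : S_BIP) (hPWA : S_PWA) (hPWR : S_PWR)
    (hPWF : S_PWF) (hFACF : S_FACF) (hNUM : S_NUM) (p : ℕ) (hp : p.Prime) (hp2 : p ≠ 2) (k d j : ℕ)
    (hd : d ∣ p - 1) (hk : k = d + j * (p - 1)) :
    Good p (ZMod (p - 1 + 2 * k)) (edgeCount (powC (p - 1 + 2 * k) k)ᶜ) := by
  have hp2' := hp.two_le
  have : NeZero (p - 1 + 2 * k) := ⟨by omega⟩
  have h1 := good_gN hDEG hDETC hBIP hPWA hPWR hPWF hFACF hNUM p hp hp2 d hd j k (p - 1 + 2 * k) hk rfl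
  rw [← zf_eq hPWA hPWR _ k (by omega)] at h1
  have h2 := Good.iso (p := p) _ _ (zf (p - 1 + 2 * k)).symm _ h1
  simpa using h2

theorem pow_sub (p : ℕ) (hp : p.Prime) (k n : ℕ) (hn : 2 * k < n)
    (h : SubgraphsToo (powC n k)ᶜ (p - 2)) (G : SimpleGraph (ZMod n))
    (hG : ∀ v : ZMod n, ∀ j : ℕ, 1 ≤ j → j ≤ k → ¬ G.Adj v (v + (j : ZMod n)))
    (hc : ¬ G.lineGraph.Colorable (p - 3)) : ListEdgeConjectureFor G := by
  refine h _ G id Function.injective_id ?_ (by
    have h1 : p - 2 - 1 = p - 3 := by omega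
    rwa [h1])
  intro u v huv
  rw [SimpleGraph.compl_adj]
  refine ⟨huv.ne, ?_⟩
  rw [id, id]
  unfold powC
  rw [SimpleGraph.fromRel_adj]
  rintro ⟨-, ⟨j, h1, h2, h3⟩ | ⟨j, h1, h2, h3⟩⟩
  · rw [h3] at huv
    exact hG u j h1 h2 huv
  · rw [h3] at huv
    exact hG v j h1 h2 huv.symm

theorem result_of (hDEG : S_DEGM) (hIDB : S_IDBM) (hCOV : S_COVM) (hSPL : S_SPLM) (hKOK : S_KOK)
    (hDETC : S_DETC) (hBIP : S_BIP)
    (hPWA : S_PWA) (hPWR : S_PWR) (hPWF : S_PWF) (hFACF : S_FACF) (p : ℕ) (hp : p.Prime) (hp2 : p ≠ 2) :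
    (∀ (V : Type) (G : SimpleGraph V), Good p V (edgeCount G) →
      ListEdgeConjectureFor G ∧ SubgraphsToo G (p - 2)) ∧
    (∀ (n : ℕ) (μ₀ : Fin n → Fin n → ℕ) (𝒢 : Set (SimpleGraph (Fin n))), Good p (Fin n) μ₀ →
      (∀ G ∈ 𝒢, ∀ v, (G.neighborSet v).ncard = p - 2) →
      graphPolynomial p μ₀ ∈ Submodule.span (ZMod p)
        ((fun G => graphPolynomial p (edgeCount G)) '' 𝒢) →
      ∃ G ∈ 𝒢, ListEdgeConjectureFor G ∧ SubgraphsToo G (p - 2)) ∧
    (∀ f : ℕ, (f = 2 ∨ f = 4) → ∀ (V : Type) (F : SimpleGraph V), Nat.card V = p - 1 + f →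
      (∀ v, (F.neighborSet v).ncard = f) → ∀ S : Set V, S.ncard = f → IsZeroForcingSet F S →
      Good p V (edgeCount Fᶜ)) ∧
    (∀ k d j : ℕ, d ∣ p - 1 → k = d + j * (p - 1) → ∀ G : SimpleGraph (ZMod (p - 1 + 2 * k)),
      (∀ v : ZMod (p - 1 + 2 * k), ∀ i : ℕ, 1 ≤ i → i ≤ k → ¬ G.Adj v (v + i)) →
      ¬ G.lineGraph.Colorable (p - 3) → ListEdgeConjectureFor G) := by
  have hISO := Pool.Agent.Y431.ZF.main
  have hNUM := Pool.Agent.Y212.ZF.num hISO
  have hGME := Pool.Agent.Y212.ZF.gme hISO
  have hUNI := Pool.Agent.Y812.ZF.Uni.main hNUM Pool.Agent.Y51.ZG.main Pool.Agent.Y726.ZF.blk hISO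
  have hSGN := Pool.Agent.Y858.ZF.main Pool.Agent.Y819.ZF.CntF.main hISO
  have hOEL := Pool.Agent.Y905.ZF.main All.sGC hGME
  have key : ∀ (V : Type) (G : SimpleGraph V), Good p V (edgeCount G) →
      ListEdgeConjectureFor G ∧ SubgraphsToo G (p - 2) := fun V G h =>
    good_list hDEG hIDB hNUM hGME hUNI hCOV hSPL hKOK hSGN hOEL p hp hp2 V G h
  exact ⟨key, fun n μ₀ 𝒢 h₀ h𝒢 hrel =>
      exchange hDEG hIDB hNUM hGME hUNI hCOV hSPL hKOK hSGN hOEL p hp hp2 n μ₀ 𝒢 h₀ h𝒢 hrel,
    fun f hf V F hV hreg S hS hS2 => good_of_forcing p hp f hf V F hV hreg S hS hS2,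
    fun k d j hd hk G hG hc => pow_sub p hp k (p - 1 + 2 * k) (by
      have := hp.two_le
      omega)
      (key _ _ (good_powers hDEG hDETC hBIP hPWA hPWR hPWF hFACF hNUM p hp hp2 k d j hd hk)).2 G hG
        hc⟩

/-- Let `p` be an odd prime. (1) The list edge colouring conjecture holds for all simple graphs in the
class `Good p` and for their subgraphs which need at least `p - 2` colours. (2) If the graph polynomial
modulo `p` of a member of the class is a linear combination of the graph polynomials of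
`(p - 2)`-regular simple graphs, then the conjecture holds for at least one of these graphs. (3) If `F`
is an `f`-regular graph with `p - 1 + f` vertices and a zero forcing set with `f` elements, `f = 2` or
`f = 4`, then the complement of `F` is in the class. (4) For all `k = d + j (p - 1)`, where `d` is a
divisor of `p - 1`, the conjecture holds for all graphs with `p - 1 + 2 k` vertices which need at
least `p - 2` colours and whose complement contains the `k`-th power of a Hamiltonian cycle. -/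
theorem result : ∀ p : ℕ, p.Prime → p ≠ 2 →
    (∀ (V : Type) (G : SimpleGraph V), Good p V (edgeCount G) →
      ListEdgeConjectureFor G ∧ SubgraphsToo G (p - 2)) ∧
    (∀ (n : ℕ) (μ₀ : Fin n → Fin n → ℕ) (𝒢 : Set (SimpleGraph (Fin n))), Good p (Fin n) μ₀ →
      (∀ G ∈ 𝒢, ∀ v, (G.neighborSet v).ncard = p - 2) →
      graphPolynomial p μ₀ ∈ Submodule.span (ZMod p)
        ((fun G => graphPolynomial p (edgeCount G)) '' 𝒢) →
      ∃ G ∈ 𝒢, ListEdgeConjectureFor G ∧ SubgraphsToo G (p - 2)) ∧
    (∀ f : ℕ, (f = 2 ∨ f = 4) → ∀ (V : Type) (F : SimpleGraph V), Nat.card V = p - 1 + f →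
      (∀ v, (F.neighborSet v).ncard = f) → ∀ S : Set V, S.ncard = f → IsZeroForcingSet F S →
      Good p V (edgeCount Fᶜ)) ∧
    (∀ k d j : ℕ, d ∣ p - 1 → k = d + j * (p - 1) → ∀ G : SimpleGraph (ZMod (p - 1 + 2 * k)),
      (∀ v : ZMod (p - 1 + 2 * k), ∀ i : ℕ, 1 ≤ i → i ≤ k → ¬ G.Adj v (v + i)) →
      ¬ G.lineGraph.Colorable (p - 3) → ListEdgeConjectureFor G) := by
  intro p hp hp2
  have hISO := Pool.Agent.Y431.ZF.main
  have hNUM := Pool.Agent.Y212.ZF.num hISO
  have hFACB := Pool.Agent.Y925.ZS.main (Pool.Agent.Y858.ZF.main Pool.Agent.Y819.ZF.CntF.main hISO)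
  have hFACF := Pool.Agent.Y889.ZS.main Pool.Agent.Y819.ZF.CntF.main
  exact result_of Pool.Agent.Y427.ZM.main
    (Pool.Agent.Y445.ZM.main (Pool.Agent.Y972.ZF.vswap Pool.Agent.Y972.ZF.split)
      Pool.Agent.Y429.ZF.LAG.main Pool.Agent.Y427.ZM.main)
    (Pool.Agent.Y672.ZS.C.main hFACB hFACF) (Pool.Agent.Y672.ZS.main hFACB hFACF)
    (Pool.Agent.Y427.ZG.main Pool.Agent.Y726.ZF.kz Pool.Agent.Y51.ZG.main hISO hNUM)
    Pool.Agent.Y306.ZP.main
    (Pool.Agent.Y65.ZP.main Pool.Agent.Y429.ZF.SUB.main) Pool.Agent.Y845.ZP.main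
    Pool.Agent.Y15.ZP.main Pool.Agent.Y64.ZP.main hFACF p hp hp2

end Pool.Agent.Results.MP_2f9829_co.PeriodicCyclePowers
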