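import Pool.Agent.Y393.RS.All

/-!
# The list edge-colouring conjecture for all dense random graphs with independent edges

The list edge-colouring conjecture holds with high probability for every random graph with
independent edges such that every vertex whose expected degree is close to the maximum has at least
`c n` uncertain edges (in the sense of `uncertainty`). The bound is uniform over all such random
graphs: block models, random subgraphs of any graph of linear maximum degree, randomly perturbed
graphs. The starting result `AlmostAllGraphs` is the case in which all edge probabilities are `1/2`.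

Project of helper393 with helpers 891, 961, 232, 125, 333, 256. The theorems on list edge colourings and
(p,1)-total labellings of graphs with few vertices of large degree are those of the project of
helper162 in the starting repository.
-/

set_option autoImplicit false

namespace Pool.Agent.Results.MP_2f9829_co.RandomGraphs

/-- Edge probabilities: `q e` is the probability that the pair `e` is an edge; all pairs are
independent. `prob q P` is the probability that the random graph has the property `P`. -/
noncomputable def prob {n : ℕ} (q : Sym2 (Fin n) → ℝ) (P : SimpleGraph (Fin n) → Prop) : ℝ := by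
  classical exact ∑ G : SimpleGraph (Fin n), if P G then
    (∏ e : {e : Sym2 (Fin n) // ¬ e.IsDiag}, if e.1 ∈ G.edgeSet then q e.1 else 1 - q e.1) else 0

/-- The expected degree of the vertex `v`. -/
noncomputable def expectedDegree {n : ℕ} (q : Sym2 (Fin n) → ℝ) (v : Fin n) : ℝ :=
  ∑ w ∈ Finset.univ.erase v, q s(v, w)

/-- The uncertainty at the vertex `v`: the sum of `min (q, 1 - q)` over all pairs at `v`. -/
noncomputable def uncertainty {n : ℕ} (q : Sym2 (Fin n) → ℝ) (v : Fin n) : ℝ :=
  ∑ w ∈ Finset.univ.erase v, min (q s(v, w)) (1 - q s(v, w))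

/-- The degree of `v` in `G`. -/
noncomputable def deg {n : ℕ} (G : SimpleGraph (Fin n)) (v : Fin n) : ℝ :=
  ((G.neighborSet v).ncard : ℝ)

/-- The list edge-colouring conjecture for the graph `G`: for every `k`, the edges can be properly
coloured with `k` colours if and only if they can be properly coloured from all lists of at least
`k` colours. -/
def ListEdge {V : Type} (G : SimpleGraph V) : Prop :=
  ∀ k : ℕ, G.lineGraph.Colorable k ↔
    ∀ L : G.edgeSet → Finset ℕ, (∀ e, k ≤ (L e).card) →
      ∃ f : G.edgeSet → ℕ, (∀ e, f e ∈ L e) ∧ ∀ e e', G.lineGraph.Adj e e' → f e ≠ f e'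

/-- For all `c > 0` and `ε > 0` and all large `n`:

(1) For every random graph on `n` vertices with independent edges in which every vertex has
uncertainty at least `c n`, or expected degree at least `c n` below the largest one, the list
edge-colouring conjecture holds with probability at least `1 - ε`.

(2) Let `F ≤ B` be graphs on `n` vertices such that every vertex `v` satisfies
`deg B v - deg F v ≥ c n`, or `deg F v + deg B v ≤ max (deg F + deg B) - c n`. All but an
`ε`-fraction of the graphs `G` with `F ≤ G ≤ B` satisfy the list edge-colouring conjecture.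

(3) Let `B` be a graph on `n` vertices with maximum degree at least `c n`. All but an `ε`-fraction
of the spanning subgraphs of `B` satisfy the list edge-colouring conjecture. -/
theorem result :
    (∀ c ε : ℝ, 0 < c → 0 < ε → ∃ N : ℕ, ∀ n : ℕ, N ≤ n → ∀ q : Sym2 (Fin n) → ℝ,
      (∀ e, 0 ≤ q e ∧ q e ≤ 1) →
      (∀ v, c * n ≤ uncertainty q v ∨
        ∃ u, expectedDegree q v + c * n ≤ expectedDegree q u) →
      1 - ε ≤ prob q (fun G => ListEdge G)) ∧
    (∀ c ε : ℝ, 0 < c → 0 < ε → ∃ N : ℕ, ∀ n : ℕ, N ≤ n → ∀ F B : SimpleGraph (Fin n), F ≤ B →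
      (∀ v, deg F v + c * n ≤ deg B v ∨ ∃ u, deg F v + deg B v + c * n ≤ deg F u + deg B u) →
      ({G : SimpleGraph (Fin n) | F ≤ G ∧ G ≤ B ∧ ¬ ListEdge G}.ncard : ℝ) ≤
        ε * {G : SimpleGraph (Fin n) | F ≤ G ∧ G ≤ B}.ncard) ∧
    ∀ c ε : ℝ, 0 < c → 0 < ε → ∃ N : ℕ, ∀ n : ℕ, N ≤ n → ∀ B : SimpleGraph (Fin n),
      (∃ v, c * n ≤ deg B v) →
      ({G : SimpleGraph (Fin n) | G ≤ B ∧ ¬ ListEdge G}.ncard : ℝ) ≤
        ε * {G : SimpleGraph (Fin n) | G ≤ B}.ncard :=
  ⟨fun c ε hc hε => (Pool.Agent.Y393.RS.typical_lecc.1 c ε hc hε).imp
      fun _ h n hn q h1 h2 => h n hn q ⟨h1, h2⟩,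
    Pool.Agent.Y393.RS.typical_lecc.2.1, Pool.Agent.Y393.RS.typical_lecc.2.2⟩

end Pool.Agent.Results.MP_2f9829_co.RandomGraphs
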